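import Pool.Agent.Q187.ZD.KZ

/-!
# Injectivity of the KZ point from dimension counts

`r N` is the dimension of the span of the polynomials of degree at most `N` in `μ` and the
coordinates `φ_b` in the coordinate ring `ℚ[M]` of the scheme of associators, `T N` the span of the
numbers `(2 π i) ^ a ζ(s)` with `a + weight s ≤ N`. A relation in degree at most `p` which does not
follow from the associator equations forces `dim T N ≤ r N - r (N - p)` for all `N ≥ p`, and a
fixed proportion of `r N` is missing for infinitely many `N`. So `φ_KZ` is injective if and only if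
`dim T N / r N` tends to `1`, and if and only if for each `p` there is a single `N` for which
`dim T N > r N - r (N - p)`.
-/

set_option autoImplicit false

open Module

namespace Pool.Agent.Results.MP_807c24_nt.DimensionCounts

open Pool.Agent.Q187.ZD
open Pool.Agent.Q187.ZD.KZ

theorem result {R : Type} [CommRing R] [Algebra ℚ R] (gr : ℕ → Submodule ℚ R) (μ : R)
    (φ : R →ₐ[ℚ] ℂ) (h : IsAssociatorRing gr μ φ) :
    (∀ p, (∃ x ∈ tot gr p, x ≠ 0 ∧ φ x = 0) →
      (∀ N, p ≤ N →
        finrank ℚ (T N) + finrank ℚ (tot gr (N - p)) ≤ finrank ℚ (tot gr N)) ∧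
      ∀ N₀, ∃ N ≥ N₀,
        (finrank ℚ (T N) : ℝ) < (1 - (2 ^ (p + 1) : ℝ)⁻¹) * finrank ℚ (tot gr N)) ∧
    (Function.Injective φ ↔ ∀ p, ∃ N, p ≤ N ∧
      finrank ℚ (tot gr N) < finrank ℚ (T N) + finrank ℚ (tot gr (N - p))) ∧
    (Function.Injective φ ↔ Filter.Tendsto
      (fun N => (finrank ℚ (T N) : ℝ) / finrank ℚ (tot gr N)) Filter.atTop (nhds 1)) :=
  ⟨fun _ hr => ⟨fun _ hN => drop h hN hr, fixed_share h hr⟩, counts h, limit h⟩

end Pool.Agent.Results.MP_807c24_nt.DimensionCounts
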