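import Pool.Agent.Q189.SP.KZPoint

/-!
# The dimension of the coefficients of the solutions of the KZ equation at a rational point

For an integer `n ≥ 2` let `Wn n N` be the `ℚ`-span of the numbers `(2 π i)^a Li_s(1 - 1/n) Li_t(1/n)` with
`a + |s| + |t| ≤ N`, and `T k` the span of the numbers `(2 π i)^a ζ(s)` of weight at most `k`. For each `N`, for all but
`C B^(1-c)` of the integers `3 ≤ n ≤ B`: `dim Wn n M = ∑_{k ≤ M} 2^k dim T (M - k)` for all `M ≤ N`. Relations between different
weights are allowed, and no hypothesis is used.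

The definitions and the proof are in `Pool.Agent.Q189.SP.KZPoint`.
-/

set_option autoImplicit false

open Module

namespace Pool.Agent.Results.MP_807c24_nt.DimensionsWithPowersOfPi

open Pool.Agent.Q187.ZD.KZ (T)
open Pool.Agent.Q189.SP.KZPoint (Wn total)

theorem result (N : ℕ) : ∃ C c : ℝ, 0 < c ∧ ∀ B : ℕ, 1 ≤ B →
    (({n : ℕ | 3 ≤ n ∧ n ≤ B ∧ ¬ ∀ M ≤ N, finrank ℚ (Wn n M) = total (fun k => finrank ℚ (T k)) M}.ncard : ℕ) : ℝ) ≤
      C * (B : ℝ) ^ (1 - c) :=
  Pool.Agent.Q189.SP.KZPoint.joined.2 N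

end Pool.Agent.Results.MP_807c24_nt.DimensionsWithPowersOfPi
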