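import Pool.Agent.Q189.SP.KZPoint

/-!
# Injectivity of the KZ point from the solutions of the KZ equation at one rational point

For an integer `n ≥ 2` let `Wn n N` be the `ℚ`-span of the numbers `(2 π i)^a Li_s(1 - 1/n) Li_t(1/n)` with
`a + |s| + |t| ≤ N`. (By the shuffle relations these are the combinations of the products of powers of `2 π i` and coefficients
of the solutions `G_0` and `G_1` of the KZ equation at the point `1/n`, of total degree at most `N`.) Let `r N` be the dimension
of the span of the polynomials of degree at most `N` in `μ` and the coordinates `φ_b` in the coordinate ring `ℚ[M]` of the scheme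
of associators and `total r N = ∑_{k ≤ N} 2^k r (N - k)`.

* `dim Wn n N ≤ total r N` for all `n ≥ 2`.
* `φ_KZ` has no relation of degree at most `N` which does not follow from the associator equations if and only if this is an
  equality for ONE `n ≥ 2`.
* If there is a relation of degree at most `p` then `dim Wn n (N + p) ≤ total r (N + p) - total r N` for all `n ≥ 2` and all `N`.
* `φ_KZ` is injective if and only if for each `p` there are `N` and `n ≥ 2` with
  `dim Wn n (N + p) > total r (N + p) - total r N`; if and only if `max_n dim Wn n N` is asymptotic to `total r N`.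

The definitions and the proof are in `Pool.Agent.Q189.SP.KZPoint`. The unconditional formula for the dimensions at almost all
integers is the companion `DimensionsWithPowersOfPi`.
-/

set_option autoImplicit false

open Module

namespace Pool.Agent.Results.MP_807c24_nt.InjectivityFromOneInteger

open Pool.Agent.Q187.ZD (tot)
open Pool.Agent.Q187.ZD.KZ (IsAssociatorRing)
open Pool.Agent.Q189.SP.KZPoint (Wn total)

/-- the criteria, for every ring with the known properties of the coordinate ring of the scheme of associators -/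
theorem result {R : Type} [CommRing R] [Algebra ℚ R] (gr : ℕ → Submodule ℚ R) (μ : R) (φ : R →ₐ[ℚ] ℂ)
    (h : IsAssociatorRing gr μ φ) (r : ℕ → ℕ) (hr : ∀ N, r N = finrank ℚ (tot gr N)) :
    (∀ n N : ℕ, 2 ≤ n → finrank ℚ (Wn n N) ≤ total r N) ∧
    (∀ N : ℕ, (∀ x ∈ tot gr N, φ x = 0 → x = 0) ↔ ∃ n : ℕ, 2 ≤ n ∧ finrank ℚ (Wn n N) = total r N) ∧
    (∀ p : ℕ, (∃ x ∈ tot gr p, x ≠ 0 ∧ φ x = 0) →
      ∀ n N : ℕ, 2 ≤ n → finrank ℚ (Wn n (N + p)) + total r N ≤ total r (N + p)) ∧
    (Function.Injective φ ↔ ∀ p, ∃ N n : ℕ, 2 ≤ n ∧ total r (N + p) < finrank ℚ (Wn n (N + p)) + total r N) ∧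
    (Function.Injective φ ↔ ∀ ε : ℝ, 0 < ε → ∃ N₀ : ℕ, ∀ N ≥ N₀, ∃ n : ℕ, 2 ≤ n ∧
      (1 - ε) * total r N ≤ finrank ℚ (Wn n N)) :=
  Pool.Agent.Q189.SP.KZPoint.joined.1 gr μ φ h r hr

end Pool.Agent.Results.MP_807c24_nt.InjectivityFromOneInteger
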