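import Pool.Agent.Q138.PS.VX
import Pool.Agent.Q138.PS.VY
import Pool.Agent.Q138.AI.R807c24

/-!
# The coordinate ring of associators and polylogarithms at `1/t` and `1 - 1/t`, `t` close to `α P(n)`

For integers `t ≥ 2` let `W_N(t)` be the rational span of the numbers `(2πi)^a Li_s(1 - 1/t) Li_r(1/t)` with `a + |s| + |r| ≤ N`,
and `T_N` that of the numbers `(2πi)^a ζ(s)` of weight at most `N`. Let `R` be a ring with the known properties of the
coordinate ring of the scheme of associators (`IsAssociatorRing`), `φ : R → ℂ` the evaluation at the associator of Drinfeld,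
`r(N)` the dimension of the part `R_{≤ N}` of degree at most `N` and `r*(N) = ∑_{k ≤ N} 2^k r(N-k)`.

Let `q ≥ 2`. Outside a set of real numbers of Hausdorff dimension at most `q / (q + 1 / (q 2 ^ (q - 1)))` (that is `8 / 9` for
`q = 2`) every `α > 0` has the following property. There is `η > 0` such that the properties `A` of integers named below are
RARE along `α P(n)`: there is `κ > 0` such that for all large `N` and ALL integral polynomials `P` of degree `q` with positive
leading coefficient and coefficients of size at most `N ^ η`, for all but `N ^ (1 - κ)` of the `n ≤ N`, NO integer `t ≥ b` (`b = 2`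
or `3`) with `|t - ⌊α P(n)⌋| ≤ N ^ κ` has the property `A`.

* `dim W_M(t) ≠ ∑_{k ≤ M} 2^k dim T_{M-k}` for some `M ≤ N` is rare, for each `N`;
* `φ` is injective on `R_{≤ N}` if and only if `dim W_N(t) ≠ r*(N)` is rare;
* `φ` is injective (the question) if and only if this is rare for every `N`.
-/

set_option autoImplicit false

namespace Pool.Agent.Results.MP_807c24_nt.InjectivityNearRealMultiples

open Filter Module Pool.Agent.Q138.PS Pool.Agent.Q138.AI.R807c24

/-- **Theorem.** -/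
theorem result (q : ℕ) (hq : 2 ≤ q) :
    ∃ E : Set ℝ, dimH E ≤ ENNReal.ofReal (q / (q + 1 / ((q : ℝ) * 2 ^ (q - 1)))) ∧ ∀ α : ℝ, 0 < α → α ∉ E →
      ∃ η : ℝ, 0 < η ∧
      (∀ N : ℕ, Rare q α η 3 fun n => ¬ ∀ M ≤ N, finrank ℚ (Wn n M) =
        total (fun k => finrank ℚ (Pool.Agent.Q187.ZD.KZ.T k)) M) ∧
      ∀ {R : Type} [CommRing R] [Algebra ℚ R] (gr : ℕ → Submodule ℚ R) (μ : R) (φ : R →ₐ[ℚ] ℂ),
        Pool.Agent.Q187.ZD.KZ.IsAssociatorRing gr μ φ → ∀ r : ℕ → ℕ,
        (∀ N, r N = finrank ℚ (Pool.Agent.Q187.ZD.tot gr N)) →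
        (∀ N : ℕ, (∀ x ∈ Pool.Agent.Q187.ZD.tot gr N, φ x = 0 → x = 0) ↔
          Rare q α η 3 fun n => ¬ finrank ℚ (Wn n N) = total r N) ∧
        (Function.Injective φ ↔ ∀ N : ℕ, Rare q α η 3 fun n => ¬ finrank ℚ (Wn n N) = total r N) := by
  obtain ⟨E, hE, hg⟩ := rare_ae (ι := ℕ) q hq (fun N n => ¬ ∀ M ≤ N, finrank ℚ (Wn n M) =
        total (fun k => finrank ℚ (Pool.Agent.Q187.ZD.KZ.T k)) M)
  refine ⟨E, hE, fun α hα hαE => ?_⟩
  obtain ⟨η, hη, h1⟩ := hg α hα hαE
  have hA : ∀ N : ℕ, Rare q α η 3 fun n => ¬ ∀ M ≤ N, finrank ℚ (Wn n M) =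
        total (fun k => finrank ℚ (Pool.Agent.Q187.ZD.KZ.T k)) M := by
    intro N
    refine h1 N 3 ?_
    have ht : truncated = Pool.Agent.Q189.MV.trunc := by
      funext s
      induction s with
      | nil => rfl
      | cons a s ih =>
        funext N
        show ∑ n ∈ Finset.range N, 1 / ((n : ℝ) + 1) ^ a * truncated s n =
          ∑ n ∈ Finset.range N, 1 / ((n : ℝ) + 1) ^ a * Pool.Agent.Q189.MV.trunc s n
        rw [ih]
    have hL : Li = Pool.Agent.Q189.MV.Lis := by
      funext s x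
      rcases s with _ | ⟨a, s⟩
      · rfl
      · show ∑' n : ℕ, x ^ (n + 1) / ((n : ℝ) + 1) ^ a * truncated s n =
          ∑' n : ℕ, x ^ (n + 1) / ((n : ℝ) + 1) ^ a * Pool.Agent.Q189.MV.trunc s n
        rw [ht]
    have hW : Wn = Pool.Agent.Q189.MV.KZ2.Wn := by
      funext n N
      unfold Wn Pool.Agent.Q189.MV.KZ2.Wn
      rw [hL]
    rw [hW]
    exact Pool.Agent.Q189.MV.KZ2.few_W N
  refine ⟨η, hη, hA, fun {R} _ _ gr μ φ h r hr => ?_⟩
  obtain ⟨-, g2, -, -, g5, -⟩ := Pool.Agent.Q138.AI.R807c24.result gr μ φ h r hr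
  have key : ∀ N : ℕ, (∀ x ∈ Pool.Agent.Q187.ZD.tot gr N, φ x = 0 → x = 0) ↔
          Rare q α η 3 fun n => ¬ finrank ℚ (Wn n N) = total r N := by
    intro N
    constructor
    · intro hN
      refine (hA N).mono le_rfl fun t _ ht hall => ht ?_
      rw [hall N le_rfl]
      unfold total
      refine Finset.sum_congr rfl fun k _ => ?_
      congr 1
      rw [hr]
      refine (Pool.Agent.Q189.MV.KZ2.T_eq_iff h (N - k)).2 ?_
      rintro ⟨x, hx, hx0, h0⟩
      exact hx0 (hN x (Pool.Agent.Q187.ZD.tot_mono gr (Nat.sub_le _ _) hx) h0)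
    · intro hN
      obtain ⟨n, hn, hn'⟩ := hN.exists_not hη
      exact (g2 N).2 ⟨n, by omega, not_not.1 hn'⟩
  refine ⟨key, fun hi N => (key N).1 fun x _ h0 => hi (h0.trans (map_zero φ).symm), fun hN => ?_⟩
  refine g5.2 fun ε hε => ⟨0, fun N _ => ?_⟩
  obtain ⟨n, hn, hn'⟩ := (hN N).exists_not hη
  refine ⟨n, by omega, ?_⟩
  rw [not_not.1 hn']
  have : (0 : ℝ) ≤ (total r N : ℝ) := by positivity
  nlinarith

end Pool.Agent.Results.MP_807c24_nt.InjectivityNearRealMultiples
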